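import Pool.Agent.H72.PNF.S2
import Pool.Agent.H88.PRK.CPLK

/-!
# PNF, row CPLN: the completions

Copy of `H88/PRK/CPLK` for a number field.
-/

set_option autoImplicit false

namespace Pool.PNF

open Polynomial NumberField IsDedekindDomain Pool.HYP Pool.TOW Pool.AVS Pool.T1 Pool.NF Pool.PRK

namespace Cpln38

open Pool.PRK.Cplk88 (unit_iff div_mem one_sub)

variable {K L : Type} [Field K] [Field L] {O : ValuationSubring L} {ι : K →+* L}

/-- Completions are as required in `Loc`. -/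
theorem loc_gen (h20 : (2 : L) ≠ 0) (h2i : (2 : L)⁻¹ ∈ O)
    (hcpl : Cpl K L O ι) (π : L) (hπ : π ∈ O) (hπ' : π⁻¹ ∉ O)
    (hunif : ∀ z : L, z ∈ O → z⁻¹ ∉ O → z / π ∈ O) : Loc L O π := by
  have hdvr := hcpl.dvr
  have hπ0 : π ≠ 0 := by
    rintro rfl
    apply hπ'
    rw [inv_zero]
    exact O.zero_mem
  have hmax : IsLocalRing.maximalIdeal O = Ideal.span {(⟨π, hπ⟩ : O)} := by
    apply le_antisymm
    · intro z hz
      rw [Ideal.mem_span_singleton]
      have hz1 : ¬ IsUnit z := (IsLocalRing.mem_maximalIdeal _).1 hz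
      by_cases hz0 : (z : L) = 0
      · have : z = 0 := Subtype.ext hz0
        rw [this]
        exact dvd_zero _
      · have hz2 : (z : L)⁻¹ ∉ O := fun h => hz1 ((unit_iff z).2 ⟨h, hz0⟩)
        refine ⟨⟨(z : L) / π, hunif z z.2 hz2⟩, Subtype.ext ?_⟩
        change (z : L) = π * ((z : L) / π)
        field_simp
    · rw [Ideal.span_le, Set.singleton_subset_iff]
      exact (IsLocalRing.mem_maximalIdeal _).2 fun h => hπ' ((unit_iff _).1 h).1
  have hirr : Irreducible (⟨π, hπ⟩ : O) := IsDiscreteValuationRing.irreducible_of_span_eq_maximalIdeal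
    _ (fun h => hπ0 (congrArg (fun z : O => (z : L)) h)) hmax
  have harch : ∀ z : O, z ≠ 0 → ∃ n : ℤ, (z : L) / π ^ n ∈ O ∧ ((z : L) / π ^ n)⁻¹ ∈ O := by
    intro z hz
    obtain ⟨n, u, hu⟩ := IsDiscreteValuationRing.eq_unit_mul_pow_irreducible hz hirr
    refine ⟨n, ?_⟩
    have h1 : (z : L) / π ^ (n : ℤ) = ((u : O) : L) := by
      rw [hu]
      change ((u : O) : L) * π ^ n / π ^ (n : ℤ) = _
      rw [zpow_natCast]
      field_simp
    rw [h1]
    exact ⟨(u : O).2, ((unit_iff _).1 u.isUnit).1⟩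
  refine ⟨⟨h20, ?_⟩, hπ0, hπ, ?_, ?_, ?_, hcpl.fin⟩
  · exact h2i
  · intro x hx hx0
    refine ⟨hunif x hx, fun h h' => hπ' ?_⟩
    have : π⁻¹ = x⁻¹ * (x / π) := by field_simp
    rw [this]
    exact mul_mem h' h
  · intro x hx0
    rcases O.mem_or_inv_mem x with h | h
    · exact harch ⟨x, h⟩ (fun h' => hx0 (congrArg (fun z : O => (z : L)) h'))
    · obtain ⟨n, hn1, hn2⟩ := harch ⟨x⁻¹, h⟩
        (fun h' => inv_ne_zero hx0 (congrArg (fun z : O => (z : L)) h'))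
      refine ⟨-n, ?_⟩
      have h1 : x / π ^ (-n) = (x⁻¹ / π ^ n)⁻¹ := by
        rw [zpow_neg]
        field_simp
      rw [h1, inv_inv]
      exact ⟨hn2, hn1⟩
  · have := hcpl.complete
    have : HenselianRing O (IsLocalRing.maximalIdeal O) := inferInstance
    exact
      { is_henselian := fun f hf a₀ h₁ h₂ =>
          HenselianRing.is_henselian f hf a₀ h₁ (h₂.map (Ideal.Quotient.mk _)) }

theorem loc_val (h20 : (2 : L) ≠ 0) (h2i : (2 : L)⁻¹ ∈ O)
    (hcpl : Cpl K L O ι) {π : K} (hπ : ι π ∈ O) (hπ' : (ι π)⁻¹ ∉ O)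
    (hval : ∀ x : K, x ≠ 0 → ∃ n : ℤ, ι (x / π ^ n) ∈ O ∧ (ι (x / π ^ n))⁻¹ ∈ O) :
    Loc L O (ι π) := by
  have hι0 : ι π ≠ 0 := by
    intro h
    apply hπ'
    rw [h, inv_zero]
    exact O.zero_mem
  refine loc_gen h20 h2i hcpl _ hπ hπ' fun z hz hz' => ?_
  by_cases hz0 : z = 0
  · rw [hz0, zero_div]
    exact O.zero_mem
  obtain ⟨x, hx⟩ := hcpl.dense z (z * ι π) (mul_ne_zero hz0 hι0)
  set w : L := (z - ι x) / (z * ι π) with hw
  obtain ⟨h3, h4, h5⟩ := one_sub hπ hπ' hx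
  have h6 : ι x = z * (1 - ι π * w) := by
    rw [hw]
    field_simp
    ring
  have h7 : (ι x)⁻¹ ∉ O := by
    intro h8
    apply hz'
    have h9 : z⁻¹ = (ι x)⁻¹ * (1 - ι π * w) := by
      rw [h6]
      field_simp
    rw [h9]
    exact mul_mem h8 h3
  have h8 := div_mem hπ hπ' hval x (Or.inr h7)
  have h9 : z / ι π = ι x / ι π * (1 - ι π * w)⁻¹ := by
    rw [h6]
    field_simp
  rw [h9]
  exact mul_mem h8 h4

end Cpln38

open Pool.PRK.Cplk88 (unit_iff div_mem one_sub) in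
/-- CPLN. -/
theorem cpln : CPLNStmt := by
  intro K _ _ L _ O' ι hC h2i
  have hdvr := hC.dvr
  have h20 : (2 : L) ≠ 0 := by
    have h3 : ι 2 = 2 := map_ofNat _ _
    rw [← h3]
    exact (_root_.map_ne_zero ι).2 two_ne_zero
  have hR : ∀ a : 𝓞 K, ι (algebraMap (𝓞 K) K a) ∈ O' := by
    intro a
    have h1 : IsIntegral ℤ (ι (algebraMap (𝓞 K) K a)) := by
      have h2 : IsIntegral ℤ (algebraMap (𝓞 K) K a) := a.2
      exact h2.map (ι.toIntAlgHom)
    have h2 : IsIntegral O' (ι (algebraMap (𝓞 K) K a)) := h1.tower_top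
    obtain ⟨z, hz⟩ := IsIntegrallyClosed.isIntegral_iff.1 h2
    rw [← hz]
    exact z.2
  have hinj : Function.Injective (algebraMap (𝓞 K) K) := IsFractionRing.injective (𝓞 K) K
  let φ : (𝓞 K) →+* O' := (ι.comp (algebraMap (𝓞 K) K)).codRestrict O'.toSubring hR
  have hφ : ∀ a : (𝓞 K), ((φ a : O') : L) = ι (algebraMap (𝓞 K) K a) := fun _ => rfl
  set I : Ideal (𝓞 K) := (IsLocalRing.maximalIdeal O').comap φ with hI
  have hIp : I.IsPrime := Ideal.IsPrime.comap φ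
  have hmI : ∀ a : (𝓞 K), a ∈ I ↔ ι (algebraMap (𝓞 K) K a) = 0 ∨ (ι (algebraMap (𝓞 K) K a))⁻¹ ∉ O' := by
    intro a
    rw [hI, Ideal.mem_comap, IsLocalRing.mem_maximalIdeal, mem_nonunits_iff, unit_iff, hφ]
    tauto
  have hI0 : I ≠ ⊥ := by
    intro h
    -- every element of `K` is in `O'`
    have h1 : ∀ x : K, ι x ∈ O' := by
      intro x
      obtain ⟨a, b, hb, rfl⟩ := IsFractionRing.div_surjective (A := (𝓞 K)) x
      have hb0 : b ≠ 0 := nonZeroDivisors.ne_zero hb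
      rw [map_div₀, div_eq_mul_inv]
      refine mul_mem (hR a) ?_
      have h2 : b ∉ I := by
        rw [h]
        exact hb0
      rw [hmI] at h2
      tauto
    have h2 : ∀ z : L, z ∈ O' := by
      intro z
      obtain ⟨x, hx⟩ := hC.dense z 1 one_ne_zero
      have h3 : z = (z - ι x) / 1 + ι x := by ring
      rw [h3]
      exact add_mem hx (h1 x)
    apply IsDiscreteValuationRing.not_isField O'
    refine ⟨⟨0, 1, zero_ne_one⟩, mul_comm, ?_⟩
    intro a ha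
    exact ⟨⟨(a : L)⁻¹, h2 _⟩, Subtype.ext (mul_inv_cancel₀ fun h => ha (Subtype.ext h))⟩
  let P : HeightOneSpectrum (𝓞 K) := ⟨I, hIp, hI0⟩
  obtain ⟨ϖ, h1, h2⟩ : ∃ ϖ : (𝓞 K), ϖ ∈ P.asIdeal ∧ ϖ ∉ P.asIdeal ^ 2 := by
    obtain ⟨x, hx, hx'⟩ := Ideal.exists_mem_pow_notMem_pow_succ P.asIdeal P.ne_bot
      P.isPrime.ne_top 1
    exact ⟨x, by rwa [pow_one] at hx, hx'⟩
  have hϖ0 : ϖ ≠ 0 := by
    rintro rfl
    exact h2 (Ideal.zero_mem _)
  have hϖK : ι (algebraMap (𝓞 K) K ϖ) ≠ 0 := by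
    rw [Ne, _root_.map_eq_zero, map_eq_zero_iff _ hinj]
    exact hϖ0
  -- an element outside `P`
  obtain ⟨b, hb, hb'⟩ : ∃ b : (𝓞 K), b ∉ I ∧ ∀ a ∈ I, ϖ ∣ b * a := by
    obtain ⟨J, hJ⟩ : I ∣ Ideal.span {ϖ} := by
      rw [Ideal.dvd_iff_le, Ideal.span_le, Set.singleton_subset_iff]
      exact h1
    have hJP : ¬ J ≤ I := by
      intro h3
      apply h2
      have h4 : ϖ ∈ I * J := by
        rw [← hJ]
        exact Ideal.mem_span_singleton_self ϖ
      change ϖ ∈ I ^ 2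
      rw [pow_two]
      exact Ideal.mul_mono_right h3 h4
    obtain ⟨b, hb, hb'⟩ := SetLike.not_le_iff_exists.1 hJP
    refine ⟨b, hb', fun a ha => ?_⟩
    rw [← Ideal.mem_span_singleton, hJ, mul_comm b a]
    exact Ideal.mul_mem_mul ha hb
  have hbn : ∀ n : ℕ, ∀ a ∈ I ^ n, ϖ ^ n ∣ b ^ n * a := by
    intro n
    induction n with
    | zero =>
      intro a _
      rw [pow_zero]
      exact one_dvd _
    | succ n ih =>
      intro a ha
      rw [pow_succ] at ha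
      refine Submodule.mul_induction_on ha ?_ ?_
      · intro x hx y hy
        have h3 : b ^ (n + 1) * (x * y) = (b ^ n * x) * (b * y) := by ring
        rw [h3, pow_succ]
        exact mul_dvd_mul (ih x hx) (hb' y hy)
      · intro x y hx hy
        rw [mul_add]
        exact dvd_add hx hy
  have hunit : ∀ a : (𝓞 K), a ∉ I → ι (algebraMap (𝓞 K) K a) ∈ O' ∧ (ι (algebraMap (𝓞 K) K a))⁻¹ ∈ O' ∧
      ι (algebraMap (𝓞 K) K a) ≠ 0 := by
    intro a ha
    rw [hmI] at ha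
    push Not at ha
    exact ⟨hR a, ha.2, ha.1⟩
  have hvR : ∀ a : (𝓞 K), a ≠ 0 → ∃ (n : ℕ) (u : L), u ∈ O' ∧ u⁻¹ ∈ O' ∧ u ≠ 0 ∧
      ι (algebraMap (𝓞 K) K a) = u * ι (algebraMap (𝓞 K) K ϖ) ^ n := by
    intro a ha
    obtain ⟨n, hn, hn'⟩ : ∃ n : ℕ, a ∈ I ^ n ∧ a ∉ I ^ (n + 1) := by
      have h3 : ∃ n : ℕ, a ∉ I ^ n := by
        by_contra h4
        push Not at h4
        have h5 : P.intValuation a = 0 := by
          by_contra h6
          obtain ⟨k, hk⟩ : ∃ k : ℤ, P.intValuation a = WithZero.exp k :=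
            ⟨WithZero.log _, (WithZero.exp_log h6).symm⟩
          have h7 := (HeightOneSpectrum.intValuation_le_pow_iff_mem P a
            ((-k).toNat + 1)).2 (h4 _)
          rw [hk, WithZero.exp_le_exp] at h7
          push_cast at h7
          omega
        exact P.intValuation_ne_zero a ha h5
      classical
      have h5 := Nat.find_spec h3
      have h6 : Nat.find h3 ≠ 0 := by
        intro h7
        rw [h7, pow_zero, Ideal.one_eq_top] at h5
        exact h5 Submodule.mem_top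
      obtain ⟨n, hn⟩ := Nat.exists_eq_succ_of_ne_zero h6
      refine ⟨n, ?_, ?_⟩
      · have h8 := Nat.find_min h3 (m := n) (by omega)
        simpa using h8
      · rw [hn] at h5
        exact h5
    obtain ⟨c, hc⟩ := hbn n a hn
    have hcI : c ∉ I := by
      intro h3
      have h4 : b ^ n * a ∈ I ^ (n + 1) := by
        rw [hc, pow_succ]
        exact Ideal.mul_mem_mul (Ideal.pow_mem_pow h1 n) h3
      rcases Ideal.IsPrime.mul_mem_pow I h4 with h5 | h5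
      · exact hb (hIp.mem_of_pow_mem n h5)
      · exact hn' h5
    have hbI : b ^ n ∉ I := fun h => hb (hIp.mem_of_pow_mem n h)
    obtain ⟨u1, u2, u3⟩ := hunit c hcI
    obtain ⟨v1, v2, v3⟩ := hunit _ hbI
    refine ⟨n, ι (algebraMap (𝓞 K) K c) * (ι (algebraMap (𝓞 K) K (b ^ n)))⁻¹, mul_mem u1 v2, ?_,
      mul_ne_zero u3 (inv_ne_zero v3), ?_⟩
    · rw [mul_inv, inv_inv]
      exact mul_mem u2 v1
    · have h3 := congrArg (fun x => ι (algebraMap (𝓞 K) K x)) hc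
      simp only [map_mul, map_pow] at h3 v3 ⊢
      field_simp
      linear_combination h3
  have hval : ∀ x : K, x ≠ 0 → ∃ n : ℤ, ι (x / algebraMap (𝓞 K) K ϖ ^ n) ∈ O' ∧
      (ι (x / algebraMap (𝓞 K) K ϖ ^ n))⁻¹ ∈ O' := by
    intro x hx
    obtain ⟨a, d, hd, rfl⟩ := IsFractionRing.div_surjective (A := (𝓞 K)) x
    have hd0 : d ≠ 0 := nonZeroDivisors.ne_zero hd
    have ha0 : a ≠ 0 := by
      rintro rfl
      exact hx (by rw [map_zero, zero_div])
    obtain ⟨n, u, u1, u2, u3, u4⟩ := hvR a ha0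
    obtain ⟨m, v, v1, v2, v3, v4⟩ := hvR d hd0
    refine ⟨(n : ℤ) - m, ?_⟩
    have h3 : ι (algebraMap (𝓞 K) K a / algebraMap (𝓞 K) K d / algebraMap (𝓞 K) K ϖ ^ ((n : ℤ) - m)) =
        u * v⁻¹ := by
      rw [map_div₀, map_div₀, map_zpow₀, u4, v4, zpow_sub₀ hϖK, zpow_natCast, zpow_natCast]
      field_simp
    rw [h3]
    refine ⟨mul_mem u1 v2, ?_⟩
    rw [mul_inv, inv_inv]
    exact mul_mem u2 v1
  have hπ' : (ι (algebraMap (𝓞 K) K ϖ))⁻¹ ∉ O' := ((hmI ϖ).1 h1).resolve_left hϖK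
  have h2I : (2 : 𝓞 K) ∉ P.asIdeal := by
    intro h3
    have h4 : ι (algebraMap (𝓞 K) K 2) = 0 ∨ (ι (algebraMap (𝓞 K) K 2))⁻¹ ∉ O' := (hmI 2).1 h3
    rw [map_ofNat, map_ofNat] at h4
    exact h4.elim h20 fun h5 => h5 h2i
  refine ⟨P, ϖ, h2I, h1, h2, ⟨Cpln38.loc_val h20 h2i hC (hR ϖ) hπ' hval, hR, ?_, hC⟩⟩
  intro a
  constructor
  · intro h3
    change a ∈ I
    rw [hmI]
    by_cases h4 : ι (algebraMap (𝓞 K) K a) = 0
    · exact Or.inl h4
    · right
      intro h5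
      apply hπ'
      have h6 : (ι (algebraMap (𝓞 K) K ϖ))⁻¹ = (ι (algebraMap (𝓞 K) K a) / ι (algebraMap (𝓞 K) K ϖ)) *
          (ι (algebraMap (𝓞 K) K a))⁻¹ := by
        field_simp
      rw [h6]
      exact mul_mem h3 h5
  · intro h3
    exact div_mem (hR ϖ) hπ' hval _ ((hmI a).1 h3)

end Pool.PNF
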