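import Pool.Agent.H72.PNF.S2
import Pool.Agent.H90.PRK.TAK

/-!
# PNF, row TAKN: the types over `K`

Port of `H90/PRK/TAK` to number fields, with `CMPN` instead of `CMPK`.
-/

set_option autoImplicit false

namespace Pool.PNF

open Polynomial Matrix NumberField IsDedekindDomain Pool.HYP Pool.TOW Pool.AVS Pool.T1 Pool.NF
  Pool.PRK

/-- **TAKN.** -/
theorem takn (hTKL : TKLKStmt) (hCMP : CMPNStmt) (hINO : INOKStmt) : TAKNStmt := by
  intro K _ _ P ϖ h2P hϖ1 hϖ2 c γ f hok hf hfn hz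
  have hg : 1 ≤ 1 := le_rfl
  obtain ⟨ϖ', L, _, O', ι, -, -, hC'⟩ := hCMP K P h2P
  have hC : CompP P ϖ L O' ι := TA90.change hC' hϖ1 hϖ2
  obtain ⟨c', γ', hk, hfL, hiff⟩ := hTKL (𝓞 K) K P ϖ L O' ι hC 1 c γ f hg hok hf hfn hz
  have hfK : (fk K f).Monic := hf.map _
  have hcop : ∀ α : K[X], IsCoprime α (fk K f) →
      IsCoprime (α.map ι) (oL O' ((X - C c') * γ')) := fun α hα => by
    rw [← hfL]
    exact One86.cop_map ι hα
  have hnsq : ∀ α : K[X], NSq (fk K f) α → NSq (oL O' ((X - C c') * γ')) (α.map ι) :=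
    fun α hα => by
    rw [← hfL]
    exact One86.nsq_map ι hfK hα
  obtain ⟨fO, -, -, hfO, -, -, -, hUS, hTR⟩ := hINO (𝓞 K) K P ϖ L O' ι hC f hf
  have hfO' : fO = (X - C c') * γ' := by
    apply Pool.T1.INOK43.oL_inj
    rw [hfO, hfL]
  subst hfO'
  refine ⟨?_, ?_, ?_, ?_, ?_⟩
  · intro α hα hN
    obtain ⟨x, hx⟩ := cla unr L O' _ hC.loc 1 c' γ' hg hk _ (hcop α hα)
    refine ⟨x, (hiff α hα hN x).2 hx, fun y hy => ?_⟩
    exact tyq unr L O' _ hC.loc 1 c' γ' hg hk _ _ _ ((hiff α hα hN y).1 hy) hx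
  · intro α β x y hα hNα hβ hNβ hx hy
    refine (hiff (α * β) (hα.mul_left hβ) (One86.nsq_mul hNα hNβ) (x + y)).2 ?_
    rw [Polynomial.map_mul]
    exact tym unr nmu L O' _ hC.loc 1 c' γ' hg hk _ _ x y (hcop α hα) (hcop β hβ)
      (hnsq α hNα) (hnsq β hNβ) ((hiff α hα hNα x).1 hx) ((hiff β hβ hNβ y).1 hy)
  · intro α β s x _ _ hs hd ht
    obtain ⟨s0, p, hs0, hd0, hp, hsq⟩ := ht
    obtain ⟨a, b, hab⟩ := hs
    have ha : IsCoprime a (fk K f) := ⟨s, b, by rw [← hab]; ring⟩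
    refine ⟨a * s0, p, ha.mul_left hs0, ?_, hp, hsq⟩
    obtain ⟨w, hw⟩ := hd
    obtain ⟨w0, hw0⟩ := hd0
    refine ⟨w * (a * s0) ^ 2 + w0 - α * s0 ^ 2 * (b * (1 + a * s)), ?_⟩
    linear_combination (a * s0) ^ 2 * hw + hw0 + α * s0 ^ 2 * (1 + a * s) * hab
  · intro α x hα hN hx
    rw [← hUS α hα]
    exact tyu unr nmu L O' _ hC.loc 1 c' γ' hg hk _ x (hcop α hα) (hnsq α hN)
      ((hiff α hα hN x).1 hx)
  · intro α hα hN hx
    refine hTR α hα ?_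
    exact ty0_of unr L O' _ hC.loc 1 c' γ' hg hk _ (hcop α hα) (hnsq α hN)
      ((hiff α hα hN 0).1 hx)

end Pool.PNF
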